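import Pool.Agent.Y328.CC.Act

set_option autoImplicit false
set_option linter.unusedSimpArgs false

/-! Project CC (helper328), part TRA. Adaptation of `Pool.Agent.H1R3.Canc.Transfer`. -/

open scoped Pointwise
open Set Function MeasureTheory

universe u v w

namespace Pool.Agent.Y970.CC

open Pool.Agent.Y328.CC

variable {H : Type w} {G : Type u} {X : Type v} [AddGroup H] [AddGroup G] [AddAction G X]

/-- The orbit map. -/
def J (j : H →+ G) (x₀ : X) (h : H) : X := j h +ᵥ x₀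

lemma eq_of_vadd {x₀ : X} (hst : ∀ g : G, g +ᵥ x₀ = x₀ → g = 0) {a b : G}
    (h : a +ᵥ x₀ = b +ᵥ x₀) : a = b := by
  have h1 : (-b + a) +ᵥ x₀ = x₀ := by
    rw [add_vadd, h, neg_vadd_vadd]
  have h2 := hst _ h1
  exact (neg_add_eq_zero.1 h2).symm

lemma J_inj (j : H →+ G) (hj : Injective j) {x₀ : X} (hst : ∀ g : G, g +ᵥ x₀ = x₀ → g = 0) :
    Injective (J j x₀) := fun _ _ h => hj (eq_of_vadd hst h)

/-- The extension of an algebra along the orbit map. -/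
def ext (j : H →+ G) (x₀ : X) (𝒜 : Set (Set H)) : Set (Set X) :=
  {E | ∀ g : G, {h | (g + j h) +ᵥ x₀ ∈ E} ∈ 𝒜}

lemma isSetAlgebra_ext (j : H →+ G) (x₀ : X) {𝒜 : Set (Set H)} (h𝒜 : IsSetAlgebra 𝒜) :
    IsSetAlgebra (ext j x₀ 𝒜) where
  empty_mem := fun x => by simpa using h𝒜.empty_mem
  compl_mem := by
    intro E hE x
    exact h𝒜.compl_mem (hE x)
  union_mem := by
    intro E F hE hF x
    exact h𝒜.union_mem (hE x) (hF x)

lemma inv_ext (j : H →+ G) (x₀ : X) (𝒜 : Set (Set H)) : Inv G (ext j x₀ 𝒜) := by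
  intro t E hE g
  have : {h | (g + j h) +ᵥ x₀ ∈ t +ᵥ E} = {h | ((-t + g) + j h) +ᵥ x₀ ∈ E} := by
    ext h
    simp only [mem_ofPred_eq, mem_v]
    rw [← add_vadd, add_assoc]
  rw [this]
  exact hE _

lemma image_mem_ext (j : H →+ G) (hj : Injective j) {x₀ : X}
    (hst : ∀ g : G, g +ᵥ x₀ = x₀ → g = 0) {𝒜 : Set (Set H)} (h𝒜 : IsSetAlgebra 𝒜)
    (hinv : Inv H 𝒜) {C : Set H} (hC : C ∈ 𝒜) : J j x₀ '' C ∈ ext j x₀ 𝒜 := by
  intro g
  by_cases hx : ∃ h₀, j h₀ = g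
  · obtain ⟨h₀, rfl⟩ := hx
    have : {h | (j h₀ + j h) +ᵥ x₀ ∈ J j x₀ '' C} = (-h₀) +ᵥ C := by
      ext h
      rw [mem_v, mem_ofPred_eq, ← map_add, neg_neg, vadd_eq_add]
      exact (J_inj j hj hst).mem_set_image
    rw [this]
    exact hinv _ _ hC
  · have : {h | (g + j h) +ᵥ x₀ ∈ J j x₀ '' C} = ∅ := by
      ext h
      simp only [mem_ofPred_eq, mem_empty_iff_false, iff_false]
      rintro ⟨c, _, hc⟩
      apply hx
      have h1 : j c = g + j h := eq_of_vadd hst hc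
      exact ⟨c - h, by rw [map_sub, h1, add_sub_cancel_right]⟩
    rw [this]
    exact h𝒜.empty_mem

lemma image_vadd' (j : H →+ G) (x₀ : X) (g : H) (C : Set H) :
    J j x₀ '' (g +ᵥ C) = j g +ᵥ (J j x₀ '' C) := by
  ext x
  constructor
  · rintro ⟨_, ⟨c, hc, rfl⟩, rfl⟩
    exact ⟨J j x₀ c, ⟨c, hc, rfl⟩, by simp [J, add_vadd]⟩
  · rintro ⟨_, ⟨c, hc, rfl⟩, rfl⟩
    exact ⟨g + c, ⟨c, hc, rfl⟩, by simp [J, add_vadd]⟩

lemma mulEqui_image (j : H →+ G) (hj : Injective j) {x₀ : X}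
    (hst : ∀ g : G, g +ᵥ x₀ = x₀ → g = 0) {𝒜 : Set (Set H)} (h𝒜 : IsSetAlgebra 𝒜)
    (hinv : Inv H 𝒜) {n : ℕ} {A B : Set H} (h : MulEqui H 𝒜 n A B) :
    MulEqui G (ext j x₀ 𝒜) n (J j x₀ '' A) (J j x₀ '' B) := by
  obtain ⟨k, C, g, js, ms, h1, h2, h3, h4, h5, h6⟩ := h
  have hprod : ∀ (E : Set H) (S : Set (Fin n)),
      (J j x₀ '' E) ×ˢ S = (fun p : H × Fin n => (J j x₀ p.1, p.2)) '' (E ×ˢ S) := by
    intro E S
    ext ⟨x, l⟩
    constructor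
    · rintro ⟨⟨e, he, rfl⟩, hl⟩
      exact ⟨(e, l), ⟨he, hl⟩, rfl⟩
    · rintro ⟨⟨e, l'⟩, ⟨he, hl⟩, heq⟩
      simp only [Prod.mk.injEq] at heq
      obtain ⟨rfl, rfl⟩ := heq
      exact ⟨⟨e, he, rfl⟩, hl⟩
  have hinj : Injective (fun p : H × Fin n => (J j x₀ p.1, p.2)) := by
    rintro ⟨a, b⟩ ⟨c, d⟩ h
    simp only [Prod.mk.injEq] at h
    exact Prod.ext (J_inj j hj hst h.1) h.2
  refine ⟨k, fun i => J j x₀ '' (C i), fun i => j (g i), js, ms, ?_, ?_, ?_, ?_, ?_, ?_⟩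
  · exact fun i => image_mem_ext j hj hst h𝒜 hinv (h1 i)
  · intro i
    rw [← image_vadd']
    exact image_mem_ext j hj hst h𝒜 hinv (h2 i)
  · intro a b hab
    simp only [Function.onFun, hprod]
    exact (Set.disjoint_image_iff hinj).mpr (h3 hab)
  · simp only [hprod, ← image_iUnion, h4]
  · intro a b hab
    simp only [Function.onFun, ← image_vadd', hprod]
    exact (Set.disjoint_image_iff hinj).mpr (h5 hab)
  · simp only [← image_vadd', hprod, ← image_iUnion, h6]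

lemma equi_of_image (j : H →+ G) (hj : Injective j) {x₀ : X}
    (hst : ∀ g : G, g +ᵥ x₀ = x₀ → g = 0) {𝒜 : Set (Set H)}
    {A B : Set H} (h : Equi G (ext j x₀ 𝒜) (J j x₀ '' A) (J j x₀ '' B)) : Equi H 𝒜 A B := by
  classical
  obtain ⟨k, C, g, h1, h2, h3, h4, h5, h6⟩ := h
  have hJ := J_inj j hj hst
  -- pull back the translations
  have hg : ∀ i, ∃ g' : H, J j x₀ ⁻¹' (g i +ᵥ C i) = g' +ᵥ (J j x₀ ⁻¹' (C i)) := by
    intro i
    by_cases hne : (C i).Nonempty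
    · obtain ⟨c, hc⟩ := hne
      have hc' : c ∈ J j x₀ '' A := by rw [← h4]; exact mem_iUnion.mpr ⟨i, hc⟩
      have hc'' : g i +ᵥ c ∈ J j x₀ '' B := by
        rw [← h6]; exact mem_iUnion.mpr ⟨i, ⟨c, hc, rfl⟩⟩
      obtain ⟨a, _, rfl⟩ := hc'
      obtain ⟨b, _, hb⟩ := hc''
      refine ⟨b - a, ?_⟩
      have h7 : j b = g i + j a := eq_of_vadd hst (by rw [add_vadd]; exact hb)
      have h8 : g i = j (b - a) := by rw [map_sub, h7, add_sub_cancel_right]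
      ext h
      rw [mem_v, mem_preimage, mem_preimage, mem_v, h8]
      have h9 : -(j (b - a)) +ᵥ J j x₀ h = J j x₀ (-(b - a) +ᵥ h) := by
        unfold J
        rw [vadd_eq_add, map_add, map_neg, add_vadd]
      rw [h9]
    · rw [not_nonempty_iff_eq_empty] at hne
      exact ⟨0, by simp [hne]⟩
  choose g' hg' using hg
  have hpre : ∀ E ∈ ext j x₀ 𝒜, J j x₀ ⁻¹' E ∈ 𝒜 := by
    intro E hE
    have := hE 0
    simp only [zero_add] at this
    exact this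
  refine ⟨k, fun i => J j x₀ ⁻¹' (C i), g', fun i => hpre _ (h1 i), fun i => ?_, ?_, ?_, ?_, ?_⟩
  · rw [← hg']; exact hpre _ (h2 i)
  · intro a b hab
    exact (h3 hab).preimage (J j x₀)
  · rw [← preimage_iUnion, h4, preimage_image_eq _ hJ]
  · intro a b hab
    simp only [Function.onFun, ← hg']
    exact (h5 hab).preimage (J j x₀)
  · simp only [← hg']
    rw [← preimage_iUnion, h6, preimage_image_eq _ hJ]

/-- (TRA) -/
theorem t_TRA : Pool.Agent.Y328.CC.S_TRA.{u, v, w} := by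
  intro H G X _ _ _ j hj x₀ hst n ⟨𝒜, h𝒜, hinv, A, hA, B, hB, h, hne⟩
  exact ⟨ext j x₀ 𝒜, isSetAlgebra_ext j x₀ h𝒜, inv_ext j x₀ 𝒜, J j x₀ '' A,
    image_mem_ext j hj hst h𝒜 hinv hA, J j x₀ '' B, image_mem_ext j hj hst h𝒜 hinv hB,
    mulEqui_image j hj hst h𝒜 hinv h, fun h' => hne (equi_of_image j hj hst h')⟩

end Pool.Agent.Y970.CC
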